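import Pool.Agent.H13.UB.Lin

/-!
# Hole by hole

From clauses saying that some pigeon of `Z'` sits in one of the first `j + 1` holes to clauses
saying that some pigeon of `Z` sits in one of the first `j` holes.
-/

set_option autoImplicit false

namespace Pool.Agent.H13.UB

open Pool.Agent.H8.RG

variable {n M : ℕ}

/-- Some pigeon of `Z` sits in one of the first `j` holes. -/
def posCl (n : ℕ) (Z : Finset ℕ) (j : ℕ) : Clause n :=
  ⟨(Z ×ˢ Finset.univ).filter (fun x => x.2.val < j), ∅⟩

theorem mem_posCl {Z : Finset ℕ} {j : ℕ} {x : PVar n} :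
    x ∈ (posCl n Z j).pos ↔ x.1 ∈ Z ∧ x.2.val < j := by
  simp [posCl, Finset.mem_filter, Finset.mem_product]

/-- Some pigeon of `Z` sits in one of the first `j` holes, or some pigeon of `W` which is `< k`
sits in hole `j`, or a pigeon of `N` does not sit in hole `j`. -/
def midCl {n : ℕ} (Z W N : Finset ℕ) (h : Fin n) (k : ℕ) : Clause n :=
  ⟨(posCl n Z h.val).pos ∪ (W.filter (fun i => i < k)).image (fun i => (i, h)),
    N.image (fun i => (i, h))⟩

theorem mem_midCl {Z W N : Finset ℕ} {h : Fin n} {k : ℕ} {x : PVar n} :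
    x ∈ (midCl Z W N h k).pos ↔ (x.1 ∈ Z ∧ x.2.val < h.val) ∨ (x.1 ∈ W ∧ x.1 < k ∧ x.2 = h) := by
  simp only [midCl, Finset.mem_union, mem_posCl, Finset.mem_image, Finset.mem_filter]
  constructor
  · rintro (h1 | ⟨i, ⟨h1, h2⟩, rfl⟩)
    · exact Or.inl h1
    · exact Or.inr ⟨h1, h2, rfl⟩
  · rintro (h1 | ⟨h1, h2, rfl⟩)
    · exact Or.inl h1
    · exact Or.inr ⟨x.1, ⟨h1, h2⟩, rfl⟩

theorem mem_midCl_neg {Z W N : Finset ℕ} {h : Fin n} {k : ℕ} {x : PVar n} :
    x ∈ (midCl Z W N h k).neg ↔ x.1 ∈ N ∧ x.2 = h := by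
  simp only [midCl, Finset.mem_image]
  constructor
  · rintro ⟨i, h1, rfl⟩
    exact ⟨h1, rfl⟩
  · rintro ⟨h1, rfl⟩
    exact ⟨x.1, h1, rfl⟩

/-- The pigeon `i` has been found in hole `h`. -/
theorem found (P : Part n M) (h : Fin n) (Z W : Finset ℕ) (i : ℕ) (hWZ : W ⊆ Z)
    (hiM : i < M) (hWM : ∀ k ∈ W, k < M)
    (hH : Has P (posCl n W (h.val + 1)) ((h.val + 1) * M)) (t : ℕ) (ht : t + (i + 1) ≤ M) :
    ∃ Q : Part n M, Ext P Q (2 * t) ∧ Has Q (midCl Z W {i} h (M - t)) (h.val * M + (M - t)) := by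
  induction t with
  | zero =>
    refine ⟨P, Ext.refl P _, hH.weaken ⟨?_, ?_⟩ ?_⟩
    · intro x hx
      rw [mem_posCl] at hx
      rw [mem_midCl]
      by_cases e : x.2.val < h.val
      · exact Or.inl ⟨hWZ hx.1, e⟩
      · right
        have e2 : x.2 = h := Fin.ext (by omega)
        exact ⟨hx.1, by have := hWM _ hx.1; omega, e2⟩
    · simp [posCl]
    · rw [add_mul, one_mul]
      omega
  | succ t ih =>
    obtain ⟨Q, hQ, hQH⟩ := ih (by omega)
    obtain ⟨k, hk⟩ : ∃ k, k = M - (t + 1) := ⟨_, rfl⟩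
    have hk1 : M - t = k + 1 := by omega
    rw [← hk]
    rw [hk1] at hQH
    by_cases hkW : k ∈ W
    · obtain ⟨Q1, hQ1, hA⟩ := ext_axiom Q (A := ⟨∅, {(i, h), (k, h)}⟩)
        (C := ⟨∅, {(i, h), (k, h)}⟩) (IsPlainAxiom.hole i k h (by omega)) (by
          intro x hx
          simp only [Finset.empty_union, Finset.mem_insert, Finset.mem_singleton] at hx
          rcases hx with rfl | rfl
          · exact hiM
          · exact hWM k hkW)
        (Sub.refl _) (h.val * M + (k + 1))
      obtain ⟨Q2, hQ2, hR⟩ := ext_res Q1 (C := midCl Z W {i} h k) (x := (k, h))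
        (β := h.val * M + k) (hQH.ext hQ1) hA (by simp only [rk]; omega) (by simp only [rk]; omega)
        (by
          intro x hx
          rw [mem_midCl] at hx
          rw [Finset.mem_insert, mem_midCl]
          rcases hx with hx | ⟨hx1, hx2, hx3⟩
          · exact Or.inr (Or.inl hx)
          · by_cases e : x.1 = k
            · left
              exact Prod.ext e hx3
            · right
              right
              exact ⟨hx1, by omega, hx3⟩)
        (by
          intro x hx
          rw [mem_midCl_neg] at hx ⊢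
          exact hx)
        (by simp)
        (by
          intro x hx
          simp only [Finset.mem_insert, Finset.mem_singleton] at hx
          rw [Finset.mem_insert, mem_midCl_neg]
          rcases hx with rfl | rfl
          · exact Or.inr ⟨by simp, rfl⟩
          · exact Or.inl rfl)
      exact ⟨Q2, ((hQ.trans hQ1).trans hQ2).mono (by omega), hR⟩
    · refine ⟨Q, hQ.mono (by omega), hQH.weaken ⟨?_, ?_⟩ (by omega)⟩
      · intro x hx
        rw [mem_midCl] at hx ⊢
        rcases hx with hx | ⟨hx1, hx2, hx3⟩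
        · exact Or.inl hx
        · right
          refine ⟨hx1, ?_, hx3⟩
          by_contra hc
          have e : x.1 = k := by omega
          rw [e] at hx1
          exact hkW hx1
      · intro x hx
        rw [mem_midCl_neg] at hx ⊢
        exact hx

/-- No pigeon of `Z` below `k` has been found in hole `h`. -/
theorem notFound (P : Part n M) (h : Fin n) (Z : Finset ℕ) (hZM : ∀ k ∈ Z, k < M)
    (g : ℕ → Finset ℕ) (hg : ∀ i ∈ Z, g i ⊆ Z.erase i) (hZ : Z.Nonempty)
    (hH : ∀ i ∈ Z, Has P (posCl n (g i) (h.val + 1)) ((h.val + 1) * M))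
    (hF : ∀ i ∈ Z, Has P (midCl Z (g i) {i} h (i + 1)) (h.val * M + (i + 1)))
    (t : ℕ) (ht : t ≤ M) :
    ∃ Q : Part n M, Ext P Q t ∧ Has Q (midCl Z Z ∅ h (M - t)) (h.val * M + (M - t)) := by
  induction t with
  | zero =>
    obtain ⟨i, hi⟩ := hZ
    refine ⟨P, Ext.refl P _, (hH i hi).weaken ⟨?_, ?_⟩ ?_⟩
    · intro x hx
      rw [mem_posCl] at hx
      rw [mem_midCl]
      have hxZ : x.1 ∈ Z := Finset.mem_of_mem_erase (hg i hi hx.1)
      by_cases e : x.2.val < h.val
      · exact Or.inl ⟨hxZ, e⟩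
      · right
        have e2 : x.2 = h := Fin.ext (by omega)
        exact ⟨hxZ, by have := hZM _ hxZ; omega, e2⟩
    · simp [posCl]
    · rw [add_mul, one_mul]
      omega
  | succ t ih =>
    obtain ⟨Q, hQ, hQH⟩ := ih (by omega)
    obtain ⟨k, hk⟩ : ∃ k, k = M - (t + 1) := ⟨_, rfl⟩
    have hk1 : M - t = k + 1 := by omega
    rw [← hk]
    rw [hk1] at hQH
    by_cases hkZ : k ∈ Z
    · obtain ⟨Q2, hQ2, hR⟩ := ext_res Q (C := midCl Z Z ∅ h k) (x := (k, h))
        (β := h.val * M + k) hQH ((hF k hkZ).ext hQ) (by simp only [rk]; omega)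
        (by simp only [rk]; omega)
        (by
          intro x hx
          rw [mem_midCl] at hx
          rw [Finset.mem_insert, mem_midCl]
          rcases hx with hx | ⟨hx1, hx2, hx3⟩
          · exact Or.inr (Or.inl hx)
          · by_cases e : x.1 = k
            · left
              exact Prod.ext e hx3
            · right
              right
              exact ⟨hx1, by omega, hx3⟩)
        (by
          intro x hx
          rw [mem_midCl_neg] at hx
          simp at hx)
        (by
          intro x hx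
          rw [mem_midCl] at hx ⊢
          rcases hx with hx | ⟨hx1, hx2, hx3⟩
          · exact Or.inl hx
          · have h1 := hg k hkZ hx1
            rw [Finset.mem_erase] at h1
            exact Or.inr ⟨h1.2, by omega, hx3⟩)
        (by
          intro x hx
          rw [mem_midCl_neg, Finset.mem_singleton] at hx
          rw [Finset.mem_insert]
          left
          exact Prod.ext hx.1 hx.2)
      exact ⟨Q2, hQ.trans hQ2, hR⟩
    · refine ⟨Q, hQ.mono (by omega), hQH.weaken ⟨?_, ?_⟩ (by omega)⟩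
      · intro x hx
        rw [mem_midCl] at hx ⊢
        rcases hx with hx | ⟨hx1, hx2, hx3⟩
        · exact Or.inl hx
        · right
          refine ⟨hx1, ?_, hx3⟩
          by_contra hc
          have e : x.1 = k := by omega
          rw [e] at hx1
          exact hkZ hx1
      · intro x hx
        rw [mem_midCl_neg] at hx ⊢
        exact hx

/-- One level. -/
theorem levelStep (P : Part n M) (j : ℕ) (hj : j < n) (Z : Finset ℕ) (hZM : ∀ k ∈ Z, k < M)
    (hZ : Z.Nonempty) (hW : ∀ i ∈ Z, ∃ W : Finset ℕ, W ⊆ Z.erase i ∧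
      Has P (posCl n W (j + 1)) ((j + 1) * M)) :
    ∃ Q : Part n M, Ext P Q (2 * M ^ 2 + M) ∧ Has Q (posCl n Z j) (j * M) := by
  classical
  choose! g hg hH using hW
  set h : Fin n := ⟨j, hj⟩ with hh
  have hZc : Z.card ≤ M := by
    have : Z ⊆ Finset.range M := fun k hk => Finset.mem_range.mpr (hZM k hk)
    simpa using Finset.card_le_card this
  obtain ⟨Q, hQ, hF⟩ := cover Z (fun i => midCl Z (g i) {i} h (i + 1))
    (fun i => h.val * M + (i + 1)) (2 * M) P (by
      intro i hi Q ⟨s, hs⟩
      have hiM := hZM i hi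
      obtain ⟨Q', hQ', hH'⟩ := found Q h Z (g i) i
        (fun k hk => Finset.mem_of_mem_erase (hg i hi hk)) hiM
        (fun k hk => hZM k (Finset.mem_of_mem_erase (hg i hi hk)))
        ((hH i hi).ext hs) (M - (i + 1)) (by omega)
      have e : M - (M - (i + 1)) = i + 1 := by omega
      rw [e] at hH'
      exact ⟨Q', hQ'.mono (by omega), hH'⟩)
  obtain ⟨Q', hQ', hN⟩ := notFound Q h Z hZM g hg hZ (fun i hi => (hH i hi).ext hQ) hF M le_rfl
  refine ⟨Q', (hQ.trans hQ').mono ?_, ?_⟩
  · have : Z.card * (2 * M) ≤ M * (2 * M) := Nat.mul_le_mul_right _ hZc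
    nlinarith
  · rw [Nat.sub_self, Nat.add_zero] at hN
    refine hN.weaken ⟨?_, ?_⟩ le_rfl
    · intro x hx
      rw [mem_midCl] at hx
      rw [mem_posCl]
      rcases hx with hx | ⟨-, hx2, -⟩
      · exact hx
      · exact absurd hx2 (Nat.not_lt_zero _)
    · intro x hx
      rw [mem_midCl_neg] at hx
      simp at hx

/-- **The scheme.** A family of sets of pigeons which survives the removal of pigeons, hole by
hole, gives an ordered refutation. -/
theorem scheme (n M B : ℕ) (F : ℕ → Finset (Finset ℕ))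
    (hM : ∀ j ≤ n, ∀ Z ∈ F j, ∀ i ∈ Z, i < M) (hne : ∀ j ≤ n, ∀ Z ∈ F j, Z.Nonempty)
    (hstep : ∀ j < n, ∀ Z ∈ F j, ∀ i ∈ Z, ∃ W ∈ F (j + 1), W ⊆ Z.erase i)
    (h0 : (F 0).Nonempty) (hB : ∀ j ≤ n, (F j).card ≤ B) :
    ∃ R : Refutation n, IsOrdered R ∧ IsPlain R ∧ OnPigeons R M ∧
      R.size ≤ (n + 1) * (B * (2 * M ^ 2 + M)) := by
  classical
  have key : ∀ t ≤ n, ∃ P : Part n M, P.size ≤ (t + 1) * (B * (2 * M ^ 2 + M)) ∧
      ∀ Z ∈ F (n - t), Has P (posCl n Z (n - t)) ((n - t) * M) := by
    intro t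
    induction t with
    | zero =>
      intro _
      obtain ⟨P, hP, hH⟩ := cover (F (n - 0)) (fun Z => posCl n Z (n - 0))
        (fun _ => (n - 0) * M) (2 * M ^ 2 + M) (Part.empty n M) (by
          intro Z hZ Q _
          obtain ⟨i, hi⟩ := hne (n - 0) (by omega) Z hZ
          have hiM := hM (n - 0) (by omega) Z hZ i hi
          obtain ⟨Q', hQ', hH'⟩ := ext_axiom Q (IsPlainAxiom.pigeon (n := n) i)
            (C := posCl n Z (n - 0)) (by
              intro x hx
              simp only [Finset.union_empty, Finset.mem_image, Finset.mem_univ, true_and] at hx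
              obtain ⟨j, rfl⟩ := hx
              exact hiM) ⟨by
              intro x hx
              simp only [Finset.mem_image, Finset.mem_univ, true_and] at hx
              obtain ⟨j, rfl⟩ := hx
              rw [mem_posCl]
              exact ⟨hi, by simp⟩, by simp⟩ ((n - 0) * M)
          refine ⟨Q', hQ'.mono ?_, hH'⟩
          have : 1 ≤ M := by omega
          omega)
      refine ⟨P, ?_, hH⟩
      have h1 := hP.2.1
      have h2 : (F (n - 0)).card * (2 * M ^ 2 + M) ≤ B * (2 * M ^ 2 + M) :=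
        Nat.mul_le_mul_right _ (hB _ (by omega))
      have h3 : (Part.empty n M).size = 0 := rfl
      rw [h3] at h1
      simpa using h1.trans (by simpa using h2)
    | succ t ih =>
      intro ht
      obtain ⟨P, hPs, hPH⟩ := ih (by omega)
      have e : n - t = (n - (t + 1)) + 1 := by omega
      obtain ⟨Q, hQ, hH⟩ := cover (F (n - (t + 1))) (fun Z => posCl n Z (n - (t + 1)))
        (fun _ => (n - (t + 1)) * M) (2 * M ^ 2 + M) P (by
          intro Z hZ Q ⟨s, hs⟩
          refine levelStep Q (n - (t + 1)) (by omega) Z (hM _ (by omega) Z hZ)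
            (hne _ (by omega) Z hZ) ?_
          intro i hi
          obtain ⟨W, hW, hWZ⟩ := hstep (n - (t + 1)) (by omega) Z hZ i hi
          refine ⟨W, hWZ, ?_⟩
          rw [← e] at hW ⊢
          exact (hPH W hW).ext hs)
      refine ⟨Q, ?_, hH⟩
      have h1 := hQ.2.1
      have h2 : (F (n - (t + 1))).card * (2 * M ^ 2 + M) ≤ B * (2 * M ^ 2 + M) :=
        Nat.mul_le_mul_right _ (hB _ (by omega))
      calc Q.size ≤ P.size + (F (n - (t + 1))).card * (2 * M ^ 2 + M) := h1
        _ ≤ (t + 1) * (B * (2 * M ^ 2 + M)) + B * (2 * M ^ 2 + M) := Nat.add_le_add hPs h2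
        _ = (t + 1 + 1) * (B * (2 * M ^ 2 + M)) := by ring
  obtain ⟨P, hP, hH⟩ := key n le_rfl
  obtain ⟨Z, hZ⟩ := h0
  rw [Nat.sub_self] at hH
  have h1 := hH Z hZ
  have h2 : Has P (⟨∅, ∅⟩ : Clause n) 0 := by
    refine h1.weaken ⟨?_, ?_⟩ (Nat.zero_le _)
    · intro x hx
      rw [mem_posCl] at hx
      exact absurd hx.2 (Nat.not_lt_zero _)
    · simp [posCl]
  obtain ⟨R, hR1, hR2, hR3, hR4⟩ := finish P h2
  exact ⟨R, hR1, hR2, hR3, hR4.trans hP⟩

end Pool.Agent.H13.UB
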