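import Pool.Agent.H8.RG.Defs

/-!
# Ordered resolution: building refutations line by line

`Part n M` is a sequence of resolution lines in which every premise is either an axiom or resolves
on a variable which comes later (in the order `rk M`) than the variable of the conclusion.
-/

set_option autoImplicit false

namespace Pool.Agent.H13.UB

open Pool.Agent.H8.RG Relation

/-- The axioms of the pigeonhole principle with `n` holes, without functionality: every pigeon sits
in some hole, no two pigeons sit in the same hole. -/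
inductive IsPlainAxiom {n : ℕ} : Clause n → Prop
  | pigeon (i : ℕ) : IsPlainAxiom ⟨Finset.univ.image (fun j => (i, j)), ∅⟩
  | hole (i i' : ℕ) (j : Fin n) (h : i ≠ i') : IsPlainAxiom ⟨∅, {(i, j), (i', j)}⟩

/-- The refutation uses only the plain axioms of the pigeonhole principle. -/
def IsPlain {n : ℕ} (R : Refutation n) : Prop :=
  ∀ k < R.size, R.step k = none → IsPlainAxiom (R.line k)

/-- Only the pigeons `0, ..., m - 1` occur in the refutation. -/
def OnPigeons {n : ℕ} (R : Refutation n) (m : ℕ) : Prop :=
  ∀ k < R.size, ∀ x ∈ (R.line k).pos ∪ (R.line k).neg, x.1 < m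

/-- The refutation is ordered: on every path which starts at the last line and goes from lines to
premises, the variables resolved on come in increasing order, where the variables are ordered first
by the hole and then by the pigeon. -/
def IsOrdered {n : ℕ} (R : Refutation n) : Prop :=
  ∀ k l x y, ReflTransGen R.Prem (R.size - 1) k → TransGen R.Prem k l →
    R.ResolvesOn k x → R.ResolvesOn l y → x.2 < y.2 ∨ (x.2 = y.2 ∧ x.1 < y.1)

variable {n M : ℕ}

theorem IsOrdered.isRegular {R : Refutation n} (h : IsOrdered R) : R.IsRegular := by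
  intro k l x hk hl hx hy
  rcases h k l x x hk hl hx hy with h1 | ⟨-, h1⟩
  · exact lt_irrefl _ h1
  · exact lt_irrefl _ h1

theorem IsPlainAxiom.isAxiom {C : Clause n} (h : IsPlainAxiom C) : IsAxiom C := by
  cases h with
  | pigeon i => exact IsAxiom.pigeon i
  | hole i i' j h => exact IsAxiom.hole i i' j h

/-- `C` is a subclause of `D`. -/
def Sub (C D : Clause n) : Prop := C.pos ⊆ D.pos ∧ C.neg ⊆ D.neg

theorem Sub.refl (C : Clause n) : Sub C C := ⟨subset_rfl, subset_rfl⟩

theorem Sub.trans {C D E : Clause n} (h : Sub C D) (h' : Sub D E) : Sub C E :=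
  ⟨h.1.trans h'.1, h.2.trans h'.2⟩

/-- The position of a variable in the order of the variables: first by holes, then by pigeons. -/
def rk (M : ℕ) (x : PVar n) : ℕ := x.2.val * M + x.1

/-- An ordered resolution derivation from the plain axioms. -/
structure Part (n M : ℕ) where
  size : ℕ
  line : ℕ → Clause n
  step : ℕ → Option (ℕ × ℕ × PVar n)
  ax : ∀ k < size, step k = none → IsPlainAxiom (line k)
  res : ∀ k < size, ∀ a b x, step k = some (a, b, x) →
    a < k ∧ b < k ∧ x ∈ (line a).pos ∧ x ∈ (line b).neg ∧ line k = resolvent (line a) (line b) x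
  ord : ∀ k < size, ∀ a b x, step k = some (a, b, x) → ∀ l, l = a ∨ l = b →
    ∀ a' b' y, step l = some (a', b', y) → rk M x < rk M y
  small : ∀ k < size, ∀ x ∈ (line k).pos ∪ (line k).neg, x.1 < M

/-- `P` has a line contained in `C` which is an axiom or resolves on a variable of rank `≥ β`. -/
def Has (P : Part n M) (C : Clause n) (β : ℕ) : Prop :=
  ∃ k < P.size, Sub (P.line k) C ∧ ∀ a b y, P.step k = some (a, b, y) → β ≤ rk M y

/-- `Q` extends `P` by at most `s` lines. -/
def Ext (P Q : Part n M) (s : ℕ) : Prop :=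
  P.size ≤ Q.size ∧ Q.size ≤ P.size + s ∧
    ∀ k < P.size, Q.line k = P.line k ∧ Q.step k = P.step k

theorem Ext.refl (P : Part n M) (s : ℕ) : Ext P P s :=
  ⟨le_rfl, Nat.le_add_right _ _, fun _ _ => ⟨rfl, rfl⟩⟩

theorem Ext.trans {P Q R : Part n M} {s t : ℕ} (h : Ext P Q s) (h' : Ext Q R t) :
    Ext P R (s + t) := by
  refine ⟨h.1.trans h'.1, by have := h.2.1; have := h'.2.1; omega, fun k hk => ?_⟩
  have h1 := h.2.2 k hk
  have h2 := h'.2.2 k (lt_of_lt_of_le hk h.1)
  exact ⟨h2.1.trans h1.1, h2.2.trans h1.2⟩

theorem Ext.mono {P Q : Part n M} {s t : ℕ} (h : Ext P Q s) (hst : s ≤ t) : Ext P Q t :=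
  ⟨h.1, h.2.1.trans (by omega), h.2.2⟩

theorem Has.ext {P Q : Part n M} {s : ℕ} {C : Clause n} {β : ℕ} (hC : Has P C β)
    (h : Ext P Q s) : Has Q C β := by
  obtain ⟨k, hk, h1, h2⟩ := hC
  obtain ⟨e1, e2⟩ := h.2.2 k hk
  refine ⟨k, lt_of_lt_of_le hk h.1, by rw [e1]; exact h1, ?_⟩
  intro a b y hs
  rw [e2] at hs
  exact h2 a b y hs

theorem Has.weaken {P : Part n M} {C C' : Clause n} {β β' : ℕ} (h : Has P C β)
    (hC : Sub C C') (hβ : β' ≤ β) : Has P C' β' := by
  obtain ⟨k, hk, h1, h2⟩ := h
  exact ⟨k, hk, h1.trans hC, fun a b y hs => hβ.trans (h2 a b y hs)⟩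

/-- Append a line. -/
theorem push (P : Part n M) (C : Clause n) (st : Option (ℕ × ℕ × PVar n))
    (h1 : st = none → IsPlainAxiom C)
    (h2 : ∀ a b x, st = some (a, b, x) →
      a < P.size ∧ b < P.size ∧ x ∈ (P.line a).pos ∧ x ∈ (P.line b).neg ∧
        C = resolvent (P.line a) (P.line b) x)
    (h3 : ∀ a b x, st = some (a, b, x) → ∀ l, l = a ∨ l = b →
      ∀ a' b' y, P.step l = some (a', b', y) → rk M x < rk M y)
    (h4 : ∀ x ∈ C.pos ∪ C.neg, x.1 < M) :
    ∃ Q : Part n M, Ext P Q 1 ∧ Q.line P.size = C ∧ Q.step P.size = st ∧ Q.size = P.size + 1 := by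
  classical
  refine ⟨{ size := P.size + 1
            line := fun k => if k = P.size then C else P.line k
            step := fun k => if k = P.size then st else P.step k
            ax := ?_
            res := ?_
            ord := ?_
            small := ?_ }, ⟨?_, ?_, ?_⟩, ?_, ?_, ?_⟩
  · intro k hk hs
    by_cases e : k = P.size
    · simp only [e, if_true] at hs ⊢
      exact h1 hs
    · simp only [if_neg e] at hs ⊢
      exact P.ax k (by omega) hs
  · intro k hk a b x hs
    by_cases e : k = P.size
    · simp only [e, if_true] at hs ⊢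
      obtain ⟨ha, hb, hx, hy, hC⟩ := h2 a b x hs
      have ea : a ≠ P.size := by omega
      have eb : b ≠ P.size := by omega
      simp only [if_neg ea, if_neg eb]
      exact ⟨ha, hb, hx, hy, hC⟩
    · simp only [if_neg e] at hs ⊢
      obtain ⟨ha, hb, hx, hy, hC⟩ := P.res k (by omega) a b x hs
      have ea : a ≠ P.size := by omega
      have eb : b ≠ P.size := by omega
      simp only [if_neg ea, if_neg eb]
      exact ⟨ha, hb, hx, hy, hC⟩
  · intro k hk a b x hs l hl a' b' y hy
    by_cases e : k = P.size
    · simp only [e, if_true] at hs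
      obtain ⟨ha, hb, -, -, -⟩ := h2 a b x hs
      have el : l ≠ P.size := by rcases hl with rfl | rfl <;> omega
      simp only [if_neg el] at hy
      exact h3 a b x hs l hl a' b' y hy
    · simp only [if_neg e] at hs
      obtain ⟨ha, hb, -, -, -⟩ := P.res k (by omega) a b x hs
      have el : l ≠ P.size := by rcases hl with rfl | rfl <;> omega
      simp only [if_neg el] at hy
      exact P.ord k (by omega) a b x hs l hl a' b' y hy
  · intro k hk x hx
    by_cases e : k = P.size
    · simp only [e, if_true] at hx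
      exact h4 x hx
    · simp only [if_neg e] at hx
      exact P.small k (by omega) x hx
  · exact Nat.le_succ _
  · exact le_rfl
  · intro k hk
    have e : k ≠ P.size := by omega
    simp only [if_neg e, and_self]
  · simp
  · simp
  · rfl

/-- Add an axiom. -/
theorem ext_axiom (P : Part n M) {A C : Clause n} (hA : IsPlainAxiom A)
    (hM : ∀ x ∈ A.pos ∪ A.neg, x.1 < M) (hAC : Sub A C) (β : ℕ) :
    ∃ Q : Part n M, Ext P Q 1 ∧ Has Q C β := by
  obtain ⟨Q, hQ, hl, hs, hsz⟩ := push P A none (fun _ => hA) (fun _ _ _ h => by simp at h)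
    (fun _ _ _ h => by simp at h) hM
  refine ⟨Q, hQ, P.size, by omega, by rw [hl]; exact hAC, ?_⟩
  intro a b y h
  rw [hs] at h
  simp at h

/-- Resolve. -/
theorem ext_res (P : Part n M) {C C1 C2 : Clause n} {x : PVar n} {β β1 : ℕ}
    (h1 : Has P C1 β1) (h2 : Has P C2 β1) (hβ : rk M x < β1) (hβ' : β ≤ rk M x)
    (hp1 : C1.pos ⊆ insert x C.pos) (hn1 : C1.neg ⊆ C.neg)
    (hp2 : C2.pos ⊆ C.pos) (hn2 : C2.neg ⊆ insert x C.neg) :
    ∃ Q : Part n M, Ext P Q 1 ∧ Has Q C β := by
  obtain ⟨a, ha, ⟨sa1, sa2⟩, oa⟩ := h1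
  obtain ⟨b, hb, ⟨sb1, sb2⟩, ob⟩ := h2
  by_cases hx : x ∈ (P.line a).pos
  · by_cases hy : x ∈ (P.line b).neg
    · have key : Sub (resolvent (P.line a) (P.line b) x) C := by
        constructor
        · intro y hy'
          simp only [Pool.Agent.H8.RG.resolvent, Finset.mem_union, Finset.mem_erase] at hy'
          rcases hy' with ⟨hne, hy'⟩ | hy'
          · have := hp1 (sa1 hy')
            rw [Finset.mem_insert] at this
            exact this.resolve_left hne
          · exact hp2 (sb1 hy')
        · intro y hy'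
          simp only [Pool.Agent.H8.RG.resolvent, Finset.mem_union, Finset.mem_erase] at hy'
          rcases hy' with hy' | ⟨hne, hy'⟩
          · exact hn1 (sa2 hy')
          · have := hn2 (sb2 hy')
            rw [Finset.mem_insert] at this
            exact this.resolve_left hne
      obtain ⟨Q, hQ, hl, hs, hsz⟩ := push P (resolvent (P.line a) (P.line b) x) (some (a, b, x))
        (fun h => by simp at h)
        (fun a' b' x' h => by
          simp only [Option.some.injEq, Prod.mk.injEq] at h
          obtain ⟨rfl, rfl, rfl⟩ := h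
          exact ⟨ha, hb, hx, hy, rfl⟩)
        (fun a' b' x' h l hl a'' b'' y hyy => by
          simp only [Option.some.injEq, Prod.mk.injEq] at h
          obtain ⟨rfl, rfl, rfl⟩ := h
          rcases hl with rfl | rfl
          · exact lt_of_lt_of_le hβ (oa _ _ _ hyy)
          · exact lt_of_lt_of_le hβ (ob _ _ _ hyy))
        (fun y hy' => by
          simp only [Pool.Agent.H8.RG.resolvent, Finset.mem_union, Finset.mem_erase] at hy'
          rcases hy' with (⟨-, hy'⟩ | hy') | (hy' | ⟨-, hy'⟩)
          · exact P.small a ha y (Finset.mem_union_left _ hy')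
          · exact P.small b hb y (Finset.mem_union_left _ hy')
          · exact P.small a ha y (Finset.mem_union_right _ hy')
          · exact P.small b hb y (Finset.mem_union_right _ hy'))
      refine ⟨Q, hQ, P.size, by omega, by rw [hl]; exact key, ?_⟩
      intro a' b' y h
      rw [hs] at h
      simp only [Option.some.injEq, Prod.mk.injEq] at h
      obtain ⟨rfl, rfl, rfl⟩ := h
      exact hβ'
    · refine ⟨P, Ext.refl P 1, b, hb, ⟨sb1.trans hp2, ?_⟩, ?_⟩
      · intro y hy'
        have := hn2 (sb2 hy')
        rw [Finset.mem_insert] at this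
        rcases this with rfl | h
        · exact absurd hy' hy
        · exact h
      · intro a' b' y h
        have := ob a' b' y h
        omega
  · refine ⟨P, Ext.refl P 1, a, ha, ⟨?_, sa2.trans hn1⟩, ?_⟩
    · intro y hy'
      have := hp1 (sa1 hy')
      rw [Finset.mem_insert] at this
      rcases this with rfl | h
      · exact absurd hy' hx
      · exact h
    · intro a' b' y h
      have := oa a' b' y h
      omega

/-- Cover a finite set of clauses. -/
theorem cover {ι : Type*} (S : Finset ι) (f : ι → Clause n) (β : ι → ℕ) (c : ℕ)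
    (P : Part n M)
    (h : ∀ i ∈ S, ∀ Q : Part n M, (∃ s, Ext P Q s) → ∃ Q', Ext Q Q' c ∧ Has Q' (f i) (β i)) :
    ∃ Q : Part n M, Ext P Q (S.card * c) ∧ ∀ i ∈ S, Has Q (f i) (β i) := by
  classical
  induction S using Finset.induction_on with
  | empty => exact ⟨P, Ext.refl P _, by simp⟩
  | insert i S hi ih =>
    obtain ⟨Q, hQ, hH⟩ := ih (fun j hj => h j (Finset.mem_insert_of_mem hj))
    obtain ⟨Q', hQ', hH'⟩ := h i (Finset.mem_insert_self _ _) Q ⟨_, hQ⟩
    refine ⟨Q', ?_, ?_⟩
    · rw [Finset.card_insert_of_notMem hi, add_mul, one_mul]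
      exact hQ.trans hQ'
    · intro j hj
      rw [Finset.mem_insert] at hj
      rcases hj with rfl | hj
      · exact hH'
      · exact (hH j hj).ext hQ'

/-- The empty derivation. -/
def Part.empty (n M : ℕ) : Part n M where
  size := 0
  line := fun _ => ⟨∅, ∅⟩
  step := fun _ => none
  ax := fun _ hk => absurd hk (Nat.not_lt_zero _)
  res := fun _ hk => absurd hk (Nat.not_lt_zero _)
  ord := fun _ hk => absurd hk (Nat.not_lt_zero _)
  small := fun _ hk => absurd hk (Nat.not_lt_zero _)

/-- From a derivation of the empty clause to an ordered refutation. -/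
theorem finish (P : Part n M) (h : Has P ⟨∅, ∅⟩ 0) :
    ∃ R : Refutation n, IsOrdered R ∧ IsPlain R ∧ OnPigeons R M ∧ R.size ≤ P.size := by
  obtain ⟨k, hk, ⟨h1, h2⟩, -⟩ := h
  have hline : P.line k = ⟨∅, ∅⟩ := by
    ext1
    · exact Finset.subset_empty.mp h1
    · exact Finset.subset_empty.mp h2
  let R : Refutation n :=
    { size := k + 1
      line := P.line
      step := P.step
      size_pos := Nat.succ_pos _
      axiom_step := fun l hl hs => (P.ax l (by omega) hs).isAxiom
      res_step := fun l hl a b x hs => P.res l (by omega) a b x hs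
      last := by simpa using hline }
  have hRs : R.size = k + 1 := rfl
  have prem_lt : ∀ l l', R.Prem l l' → l < R.size → l' < l := by
    intro l l' ⟨a, b, x, hs, hl'⟩ hl
    obtain ⟨ha, hb, -⟩ := P.res l (by omega) a b x hs
    rcases hl' with rfl | rfl <;> assumption
  have reach_lt : ∀ l, ReflTransGen R.Prem (R.size - 1) l → l < R.size := by
    intro l hl
    induction hl with
    | refl => omega
    | tail _ h ih => exact (prem_lt _ _ h ih).trans ih
  have trans_lt : ∀ l l', l < R.size → TransGen R.Prem l l' → l' < R.size ∧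
      ∀ x y, R.ResolvesOn l x → R.ResolvesOn l' y → rk M x < rk M y := by
    intro l l' hl ht
    induction ht with
    | single h =>
      refine ⟨(prem_lt _ _ h hl).trans hl, ?_⟩
      intro x y ⟨a, b, hs⟩ ⟨a', b', hs'⟩
      obtain ⟨a1, b1, x1, hs1, hl1⟩ := h
      have e : some (a, b, x) = some (a1, b1, x1) := hs.symm.trans hs1
      simp only [Option.some.injEq, Prod.mk.injEq] at e
      obtain ⟨rfl, rfl, rfl⟩ := e
      exact P.ord l (by omega) a b x hs _ hl1 a' b' y hs'
    | tail h1 h2 ih =>
      obtain ⟨ih1, ih2⟩ := ih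
      refine ⟨(prem_lt _ _ h2 ih1).trans ih1, ?_⟩
      intro x y hx ⟨a', b', hs'⟩
      obtain ⟨a1, b1, x1, hs1, hl1⟩ := h2
      have h3 := ih2 x x1 hx ⟨a1, b1, hs1⟩
      have h4 := P.ord _ (by omega) a1 b1 x1 hs1 _ hl1 a' b' y hs'
      omega
  refine ⟨R, ?_, ?_, ?_, ?_⟩
  · intro l l' x y hl ht hx hy
    have h1 := reach_lt l hl
    have h2 := (trans_lt l l' h1 ht)
    have h3 := h2.2 x y hx hy
    have hsm : ∀ (k' : ℕ) (z : PVar n), k' < R.size → R.ResolvesOn k' z → z.1 < M := by
      intro k' z hk' ⟨a, b, hs⟩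
      obtain ⟨ha, -, hz, -, -⟩ := P.res k' (by omega) a b z hs
      exact P.small a (by omega) z (Finset.mem_union_left _ hz)
    have h4 := hsm l x h1 hx
    have h5 := hsm l' y h2.1 hy
    simp only [rk] at h3
    by_cases e : x.2.val < y.2.val
    · exact Or.inl e
    · right
      have e2 : x.2.val = y.2.val := by
        by_contra hc
        have h6 : y.2.val + 1 ≤ x.2.val := by omega
        have h7 : (y.2.val + 1) * M ≤ x.2.val * M := Nat.mul_le_mul_right _ h6
        rw [add_mul, one_mul] at h7
        omega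
      refine ⟨Fin.ext e2, ?_⟩
      rw [e2] at h3
      omega
  · intro l hl hs
    exact P.ax l (by omega) hs
  · intro l hl x hx
    exact P.small l (by omega) x hx
  · omega

end Pool.Agent.H13.UB
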