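import Mathlib

/-!
# Small binary trees as descriptions of sets of pigeons

A pigeon is a natural number, read as a string of bits (lowest bit first). A binary tree describes
the set of the pigeons which pass through one of its leaves.
-/

set_option autoImplicit false

namespace Pool.Agent.H13.UB

open BinaryTree

/-- Binary trees. -/
abbrev BT := BinaryTree Unit

/-- The tree with one vertex. -/
def leaf : BT := BinaryTree.node () BinaryTree.nil BinaryTree.nil

/-- The number of leaves (vertices without children). -/
def lv : BT → ℕ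
  | BinaryTree.nil => 0
  | BinaryTree.node _ l r => max 1 (lv l + lv r)

/-- The pigeon `x` passes through a leaf. -/
def Mem : BT → ℕ → Prop
  | BinaryTree.nil, _ => False
  | BinaryTree.node _ l r, x => (l = BinaryTree.nil ∧ r = BinaryTree.nil) ∨
      (x % 2 = 0 ∧ Mem l (x / 2)) ∨ (x % 2 = 1 ∧ Mem r (x / 2))

/-- Join two trees; no root is added if both are empty. -/
def mk (l r : BT) : BT :=
  if l = BinaryTree.nil ∧ r = BinaryTree.nil then BinaryTree.nil else BinaryTree.node () l r

/-- Remove the leaf through which `x` passes, and the vertices which lose all their leaves. -/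
def kill : BT → ℕ → BT
  | BinaryTree.nil, _ => BinaryTree.nil
  | BinaryTree.node _ l r, x =>
      if l = BinaryTree.nil ∧ r = BinaryTree.nil then BinaryTree.nil
      else if x % 2 = 0 then mk (kill l (x / 2)) r else mk l (kill r (x / 2))

/-- Give two children to every leaf. -/
def refine1 : BT → BT
  | BinaryTree.nil => BinaryTree.nil
  | BinaryTree.node _ l r =>
      if l = BinaryTree.nil ∧ r = BinaryTree.nil then BinaryTree.node () leaf leaf
      else BinaryTree.node () (refine1 l) (refine1 r)

/-- The full binary tree. -/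
def full : ℕ → BT
  | 0 => leaf
  | a + 1 => BinaryTree.node () (full a) (full a)

theorem lv_pos {l r : BT} {u : Unit} : 1 ≤ lv (BinaryTree.node u l r) := by
  simp [lv]

theorem lv_eq_zero {t : BT} : lv t = 0 ↔ t = BinaryTree.nil := by
  cases t with
  | nil => simp [lv]
  | node u l r =>
    have : 1 ≤ lv (BinaryTree.node u l r) := lv_pos
    constructor
    · intro h
      omega
    · intro h
      cases h

theorem lv_leaf : lv leaf = 1 := by simp [leaf, lv]

theorem numNodes_leaf : leaf.numNodes = 1 := by simp [leaf]

theorem height_leaf : leaf.height = 1 := by simp [leaf]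

theorem mem_leaf (x : ℕ) : Mem leaf x := by simp [leaf, Mem]

theorem lv_node {l r : BT} {u : Unit} (h : ¬ (l = BinaryTree.nil ∧ r = BinaryTree.nil)) :
    lv (BinaryTree.node u l r) = lv l + lv r := by
  have h1 : ¬ (lv l = 0 ∧ lv r = 0) := by rwa [lv_eq_zero, lv_eq_zero]
  simp only [lv]
  omega

theorem mem_node {l r : BT} {u : Unit} (h : ¬ (l = BinaryTree.nil ∧ r = BinaryTree.nil)) (x : ℕ) :
    Mem (BinaryTree.node u l r) x ↔ (x % 2 = 0 ∧ Mem l (x / 2)) ∨ (x % 2 = 1 ∧ Mem r (x / 2)) := by
  simp only [Mem, h, false_or]

theorem lv_mk (l r : BT) : lv (mk l r) = lv l + lv r := by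
  unfold mk
  split_ifs with h
  · rw [h.1, h.2]
    simp [lv]
  · exact lv_node h

theorem mem_mk (l r : BT) (x : ℕ) :
    Mem (mk l r) x ↔ (x % 2 = 0 ∧ Mem l (x / 2)) ∨ (x % 2 = 1 ∧ Mem r (x / 2)) := by
  unfold mk
  split_ifs with h
  · rw [h.1, h.2]
    simp [Mem]
  · exact mem_node h x

theorem numNodes_mk (l r : BT) : (mk l r).numNodes ≤ l.numNodes + r.numNodes + 1 := by
  unfold mk
  split_ifs with h
  · simp
  · simp

theorem height_mk (l r : BT) : (mk l r).height ≤ max l.height r.height + 1 := by
  unfold mk
  split_ifs with h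
  · simp
  · simp

theorem mem_kill {t : BT} {x y : ℕ} (h : Mem (kill t x) y) : Mem t y := by
  induction t generalizing x y with
  | nil => simp [kill, Mem] at h
  | node u l r ihl ihr =>
    unfold kill at h
    split_ifs at h with h1 h2
    · simp [Mem] at h
    · rw [mem_mk] at h
      rw [mem_node h1]
      exact h.imp (fun h => ⟨h.1, ihl h.2⟩) id
    · rw [mem_mk] at h
      rw [mem_node h1]
      exact h.imp id (fun h => ⟨h.1, ihr h.2⟩)

theorem not_mem_kill (t : BT) (x : ℕ) : ¬ Mem (kill t x) x := by
  induction t generalizing x with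
  | nil => simp [kill, Mem]
  | node u l r ihl ihr =>
    unfold kill
    split_ifs with h1 h2
    · simp [Mem]
    · rw [mem_mk]
      rintro (⟨-, h⟩ | ⟨h, -⟩)
      · exact ihl _ h
      · omega
    · rw [mem_mk]
      rintro (⟨h, -⟩ | ⟨-, h⟩)
      · omega
      · exact ihr _ h

theorem lv_kill {t : BT} {x : ℕ} (h : Mem t x) : lv (kill t x) + 1 = lv t := by
  induction t generalizing x with
  | nil => simp [Mem] at h
  | node u l r ihl ihr =>
    by_cases h1 : l = BinaryTree.nil ∧ r = BinaryTree.nil
    · rw [kill, if_pos h1, h1.1, h1.2]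
      simp [lv]
    · rw [mem_node h1] at h
      rw [kill, if_neg h1, lv_node h1]
      rcases h with ⟨h2, h⟩ | ⟨h2, h⟩
      · rw [if_pos h2, lv_mk]
        have := ihl h
        omega
      · rw [if_neg (by omega), lv_mk]
        have := ihr h
        omega

theorem numNodes_kill (t : BT) (x : ℕ) : (kill t x).numNodes ≤ t.numNodes := by
  induction t generalizing x with
  | nil => simp [kill]
  | node u l r ihl ihr =>
    unfold kill
    split_ifs with h1 h2
    · simp
    · have h3 := numNodes_mk (kill l (x / 2)) r
      have h4 := ihl (x / 2)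
      simp only [BinaryTree.numNodes]
      omega
    · have h3 := numNodes_mk l (kill r (x / 2))
      have h4 := ihr (x / 2)
      simp only [BinaryTree.numNodes]
      omega

theorem height_kill (t : BT) (x : ℕ) : (kill t x).height ≤ t.height := by
  induction t generalizing x with
  | nil => simp [kill]
  | node u l r ihl ihr =>
    unfold kill
    split_ifs with h1 h2
    · simp
    · have h3 := height_mk (kill l (x / 2)) r
      have h4 := ihl (x / 2)
      simp only [BinaryTree.height]
      omega
    · have h3 := height_mk l (kill r (x / 2))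
      have h4 := ihr (x / 2)
      simp only [BinaryTree.height]
      omega

theorem refine1_ne_nil {t : BT} (h : t ≠ BinaryTree.nil) : refine1 t ≠ BinaryTree.nil := by
  cases t with
  | nil => exact absurd rfl h
  | node u l r =>
    unfold refine1
    split_ifs <;> simp

theorem refine1_eq_nil {t : BT} : refine1 t = BinaryTree.nil ↔ t = BinaryTree.nil := by
  constructor
  · intro h
    by_contra hc
    exact refine1_ne_nil hc h
  · rintro rfl
    rfl

theorem mem_refine1 {t : BT} {x : ℕ} (h : Mem (refine1 t) x) : Mem t x := by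
  induction t generalizing x with
  | nil => simp [refine1, Mem] at h
  | node u l r ihl ihr =>
    by_cases h1 : l = BinaryTree.nil ∧ r = BinaryTree.nil
    · simp [Mem, h1]
    · rw [refine1, if_neg h1, mem_node (by rwa [refine1_eq_nil, refine1_eq_nil])] at h
      rw [mem_node h1]
      exact h.imp (fun h => ⟨h.1, ihl h.2⟩) (fun h => ⟨h.1, ihr h.2⟩)

theorem lv_refine1 (t : BT) : lv (refine1 t) = 2 * lv t := by
  induction t with
  | nil => simp [refine1, lv]
  | node u l r ihl ihr =>
    by_cases h1 : l = BinaryTree.nil ∧ r = BinaryTree.nil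
    · rw [refine1, if_pos h1, h1.1, h1.2]
      simp [lv, leaf]
    · rw [refine1, if_neg h1, lv_node (by rwa [refine1_eq_nil, refine1_eq_nil]), lv_node h1, ihl,
        ihr]
      ring

theorem numNodes_refine1 (t : BT) : (refine1 t).numNodes = t.numNodes + 2 * lv t := by
  induction t with
  | nil => simp [refine1, lv]
  | node u l r ihl ihr =>
    by_cases h1 : l = BinaryTree.nil ∧ r = BinaryTree.nil
    · rw [refine1, if_pos h1, h1.1, h1.2]
      simp [lv, leaf]
    · rw [refine1, if_neg h1, lv_node h1]
      simp only [BinaryTree.numNodes, ihl, ihr]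
      ring

theorem height_refine1 (t : BT) : (refine1 t).height ≤ t.height + 1 := by
  induction t with
  | nil => simp [refine1]
  | node u l r ihl ihr =>
    by_cases h1 : l = BinaryTree.nil ∧ r = BinaryTree.nil
    · rw [refine1, if_pos h1, h1.1, h1.2]
      simp [leaf]
    · rw [refine1, if_neg h1]
      simp only [BinaryTree.height]
      omega

theorem full_ne_nil (a : ℕ) : full a ≠ BinaryTree.nil := by
  cases a <;> simp [full, leaf]

theorem lv_full (a : ℕ) : lv (full a) = 2 ^ a := by
  induction a with
  | zero => simp [full, lv_leaf]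
  | succ a ih =>
    rw [full, lv_node (fun h => full_ne_nil a h.1), ih, pow_succ]
    ring

theorem numNodes_full (a : ℕ) : (full a).numNodes + 1 = 2 ^ (a + 1) := by
  induction a with
  | zero => simp [full, numNodes_leaf]
  | succ a ih =>
    simp only [full, BinaryTree.numNodes]
    rw [pow_succ, ← ih]
    ring

theorem height_full (a : ℕ) : (full a).height = a + 1 := by
  induction a with
  | zero => simp [full, height_leaf]
  | succ a ih => simp [full, ih]

theorem height_pos {t : BT} (h : t ≠ BinaryTree.nil) : 1 ≤ t.height := by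
  cases t with
  | nil => exact absurd rfl h
  | node u l r => simp

/-- Some pigeon passes through a leaf. -/
theorem exists_mem {t : BT} (h : t ≠ BinaryTree.nil) : ∃ y < 2 ^ (t.height - 1), Mem t y := by
  induction t with
  | nil => exact absurd rfl h
  | node u l r ihl ihr =>
    by_cases h1 : l = BinaryTree.nil ∧ r = BinaryTree.nil
    · exact ⟨0, by positivity, Or.inl h1⟩
    · by_cases h2 : l = BinaryTree.nil
      · have h3 : r ≠ BinaryTree.nil := fun h3 => h1 ⟨h2, h3⟩
        obtain ⟨y, hy, hm⟩ := ihr h3
        refine ⟨2 * y + 1, ?_, ?_⟩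
        · have h4 : 2 ^ (r.height - 1 + 1) ≤ 2 ^ ((BinaryTree.node u l r).height - 1) := by
            apply Nat.pow_le_pow_right (by norm_num)
            have := height_pos h3
            simp only [BinaryTree.height]
            omega
          rw [pow_succ] at h4
          omega
        · rw [mem_node h1]
          right
          exact ⟨by omega, by rwa [show (2 * y + 1) / 2 = y by omega]⟩
      · obtain ⟨y, hy, hm⟩ := ihl h2
        refine ⟨2 * y, ?_, ?_⟩
        · have h4 : 2 ^ (l.height - 1 + 1) ≤ 2 ^ ((BinaryTree.node u l r).height - 1) := by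
            apply Nat.pow_le_pow_right (by norm_num)
            have := height_pos h2
            simp only [BinaryTree.height]
            omega
          rw [pow_succ] at h4
          omega
        · rw [mem_node h1]
          left
          exact ⟨by omega, by rwa [show (2 * y) / 2 = y by omega]⟩

/-- A subtree with between `L` and `2 L` leaves, and the rest. -/
theorem peel {L : ℕ} (hL : 1 ≤ L) (t : BT) (h : L ≤ lv t) : ∃ (e b : ℕ) (t1 t2 : BT),
    b < 2 ^ e ∧ (∀ y, y % 2 ^ e = b → Mem t1 (y / 2 ^ e) → Mem t y) ∧
    (∀ y, Mem t2 y → Mem t y) ∧ lv t1 + lv t2 = lv t ∧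
    t1.numNodes + t2.numNodes ≤ t.numNodes ∧ L ≤ lv t1 ∧ lv t1 ≤ 2 * L ∧
    e + t1.height ≤ t.height ∧ t2.height ≤ t.height := by
  induction t with
  | nil =>
    simp only [lv] at h
    omega
  | node u l r ihl ihr =>
    by_cases hl : L ≤ lv l
    · obtain ⟨e, b, t1, t2, h1, h2, h3, h4, h5, h6, h7, h8, h9⟩ := ihl hl
      have hne : ¬ (l = BinaryTree.nil ∧ r = BinaryTree.nil) := by
        rintro ⟨rfl, -⟩
        simp only [lv] at hl
        omega
      refine ⟨e + 1, 2 * b, t1, mk t2 r, ?_, ?_, ?_, ?_, ?_, h6, h7, ?_, ?_⟩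
      · rw [pow_succ]
        omega
      · intro y hy hm
        rw [mem_node hne]
        left
        rw [pow_succ, mul_comm, Nat.mod_mul] at hy
        rw [pow_succ, mul_comm, ← Nat.div_div_eq_div_mul] at hm
        exact ⟨by omega, h2 _ (by omega) hm⟩
      · intro y hy
        rw [mem_mk] at hy
        rw [mem_node hne]
        exact hy.imp (fun h => ⟨h.1, h3 _ h.2⟩) id
      · rw [lv_mk, lv_node hne]
        omega
      · have := numNodes_mk t2 r
        simp only [BinaryTree.numNodes]
        omega
      · simp only [BinaryTree.height]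
        omega
      · have := height_mk t2 r
        simp only [BinaryTree.height]
        omega
    · by_cases hr : L ≤ lv r
      · obtain ⟨e, b, t1, t2, h1, h2, h3, h4, h5, h6, h7, h8, h9⟩ := ihr hr
        have hne : ¬ (l = BinaryTree.nil ∧ r = BinaryTree.nil) := by
          rintro ⟨-, rfl⟩
          simp only [lv] at hr
          omega
        refine ⟨e + 1, 2 * b + 1, t1, mk l t2, ?_, ?_, ?_, ?_, ?_, h6, h7, ?_, ?_⟩
        · rw [pow_succ]
          omega
        · intro y hy hm
          rw [mem_node hne]
          right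
          rw [pow_succ, mul_comm, Nat.mod_mul] at hy
          rw [pow_succ, mul_comm, ← Nat.div_div_eq_div_mul] at hm
          exact ⟨by omega, h2 _ (by omega) hm⟩
        · intro y hy
          rw [mem_mk] at hy
          rw [mem_node hne]
          exact hy.imp id (fun h => ⟨h.1, h3 _ h.2⟩)
        · rw [lv_mk, lv_node hne]
          omega
        · have := numNodes_mk l t2
          simp only [BinaryTree.numNodes]
          omega
        · simp only [BinaryTree.height]
          omega
        · have := height_mk l t2
          simp only [BinaryTree.height]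
          omega
      · refine ⟨0, 0, BinaryTree.node u l r, BinaryTree.nil, by simp, ?_, ?_, ?_, ?_, h, ?_, ?_, ?_⟩
        · intro y _ hm
          simpa using hm
        · intro y hm
          simp [Mem] at hm
        · simp [lv]
        · simp
        · simp only [lv]
          omega
        · simp
        · simp

/-- A state with few leaves inside a given one. -/
theorem split {L : ℕ} (hL : 1 ≤ L) (N : ℕ) : ∀ (d c : ℕ) (t : BT), lv t = N → c < 2 ^ d →
    L ≤ lv t → t.numNodes ≤ 3 * lv t → ∃ (d' c' : ℕ) (t' : BT), c' < 2 ^ d' ∧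
    (∀ x, x % 2 ^ d' = c' → Mem t' (x / 2 ^ d') → x % 2 ^ d = c ∧ Mem t (x / 2 ^ d)) ∧
    L ≤ lv t' ∧ lv t' ≤ 3 * L ∧ t'.numNodes ≤ 3 * lv t' ∧ d' + t'.height ≤ d + t.height := by
  induction N using Nat.strong_induction_on with
  | _ N ih =>
    intro d c t hN hc hLt hn
    by_cases h3 : lv t ≤ 3 * L
    · exact ⟨d, c, t, hc, fun x hx hm => ⟨hx, hm⟩, hLt, h3, hn, le_rfl⟩
    · obtain ⟨e, b, t1, t2, h1, h2, h4, h5, h6, h7, h8, h9, h10⟩ := peel hL t hLt
      by_cases h11 : t1.numNodes ≤ 3 * lv t1
      · refine ⟨d + e, c + 2 ^ d * b, t1, ?_, ?_, h7, by omega, h11, by omega⟩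
        · rw [pow_add]
          calc c + 2 ^ d * b < 2 ^ d + 2 ^ d * b := by omega
            _ = 2 ^ d * (b + 1) := by ring
            _ ≤ 2 ^ d * 2 ^ e := Nat.mul_le_mul_left _ h1
        · intro x hx hm
          rw [pow_add, Nat.mod_mul] at hx
          rw [pow_add, ← Nat.div_div_eq_div_mul] at hm
          have hpos : 0 < 2 ^ d := by positivity
          have hlt : x % 2 ^ d < 2 ^ d := Nat.mod_lt _ hpos
          have e1 : x % 2 ^ d = c := by
            have h12 := congrArg (fun z => z % 2 ^ d) hx
            simp only [Nat.add_mul_mod_self_left] at h12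
            rwa [Nat.mod_eq_of_lt hlt, Nat.mod_eq_of_lt hc] at h12
          have e2 : x / 2 ^ d % 2 ^ e = b := by
            rw [e1] at hx
            have h12 : 2 ^ d * (x / 2 ^ d % 2 ^ e) = 2 ^ d * b := by omega
            exact Nat.eq_of_mul_eq_mul_left hpos h12
          exact ⟨e1, h2 _ e2 hm⟩
      · obtain ⟨d', c', t', g1, g2, g3, g4, g5, g6⟩ := ih (lv t2) (by omega) d c t2 rfl hc
          (by omega) (by omega)
        refine ⟨d', c', t', g1, ?_, g3, g4, g5, by omega⟩
        intro x hx hm
        obtain ⟨k1, k2⟩ := g2 x hx hm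
        exact ⟨k1, h4 _ k2⟩

/-- The trees with at most `N` vertices. -/
def treesLe (N : ℕ) : Finset BT :=
  (Finset.range (N + 1)).biUnion treesOfNumNodesEq

theorem mem_treesLe {N : ℕ} {t : BT} : t ∈ treesLe N ↔ t.numNodes ≤ N := by
  simp only [treesLe, Finset.mem_biUnion, Finset.mem_range, mem_treesOfNumNodesEq]
  constructor
  · rintro ⟨k, hk, h⟩
    omega
  · intro h
    exact ⟨_, by omega, rfl⟩

theorem card_treesLe (N : ℕ) : (treesLe N).card ≤ 4 ^ (N + 1) := by
  have h1 : (treesLe N).card ≤ ∑ k ∈ Finset.range (N + 1), 4 ^ k := by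
    refine Finset.card_biUnion_le.trans (Finset.sum_le_sum fun k _ => ?_)
    rw [treesOfNumNodesEq_card_eq_catalan, catalan_eq_centralBinom_div]
    exact (Nat.div_le_self _ _).trans (Nat.centralBinom_le_four_pow k)
  have h2 : ∑ k ∈ Finset.range (N + 1), 4 ^ k ≤ 4 ^ (N + 1) := by
    have h3 := Nat.geomSum_lt (m := 4) (n := N + 1) (s := Finset.range (N + 1)) (by norm_num)
      (fun k hk => Finset.mem_range.mp hk)
    exact h3.le
  exact h1.trans h2

end Pool.Agent.H13.UB
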