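import Pool.Agent.H13.UB.Level
import Pool.Agent.H13.UB.Trees

/-!
# The upper bound

States: a position `(d, c)` (the pigeons `x` with `x % 2 ^ d = c`) and a tree `t` below it. In
phases of `K` holes the tree loses at most one leaf per hole; then every leaf gets two children
and a subtree with few leaves is chosen.
-/

set_option autoImplicit false

namespace Pool.Agent.H13.UB

open Pool.Agent.H8.RG

/-- The pigeons `< 2 ^ D` described by the state `(d, c, t)`. -/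
noncomputable def zset (D : ℕ) (s : ℕ × ℕ × BT) : Finset ℕ := by
  classical
  exact (Finset.range (2 ^ D)).filter
    (fun x => x % 2 ^ s.1 = s.2.1 ∧ Mem s.2.2 (x / 2 ^ s.1))

theorem mem_zset {D : ℕ} {s : ℕ × ℕ × BT} {x : ℕ} :
    x ∈ zset D s ↔ x < 2 ^ D ∧ x % 2 ^ s.1 = s.2.1 ∧ Mem s.2.2 (x / 2 ^ s.1) := by
  classical
  simp [zset]

/-- The states admitted after `j` holes. -/
def Good (A K j : ℕ) (s : ℕ × ℕ × BT) : Prop :=
  s.2.1 < 2 ^ s.1 ∧ s.1 + s.2.2.height ≤ A + j / K + 1 ∧ 4 * K ≤ lv s.2.2 + j % K ∧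
    lv s.2.2 + j % K ≤ 12 * K ∧ s.2.2.numNodes ≤ 3 * (lv s.2.2 + j % K)

/-- All states which can occur. -/
def allStates (D N : ℕ) : Finset (ℕ × ℕ × BT) :=
  Finset.range (D + 1) ×ˢ (Finset.range (2 ^ D) ×ˢ treesLe N)

theorem card_allStates (D N : ℕ) : (allStates D N).card ≤ 2 ^ (2 * D) * 4 ^ (N + 1) := by
  have h1 : D + 1 ≤ 2 ^ D := Nat.lt_two_pow_self
  calc (allStates D N).card = (D + 1) * (2 ^ D * (treesLe N).card) := by
        simp [allStates, Finset.card_product]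
    _ ≤ 2 ^ D * (2 ^ D * 4 ^ (N + 1)) :=
        Nat.mul_le_mul h1 (Nat.mul_le_mul_left _ (card_treesLe N))
    _ = 2 ^ (2 * D) * 4 ^ (N + 1) := by ring

theorem Good.ne_nil {A K j : ℕ} {s : ℕ × ℕ × BT} (hK : 1 ≤ K) (h : Good A K j s) :
    s.2.2 ≠ BinaryTree.nil := by
  intro hc
  have h1 := h.2.2.1
  have h2 : lv s.2.2 = 0 := lv_eq_zero.mpr hc
  have h3 := Nat.mod_lt j hK
  omega

theorem Good.mem_allStates {n A K j : ℕ} {s : ℕ × ℕ × BT} (hK : 1 ≤ K) (hj : j ≤ n)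
    (h : Good A K j s) : s ∈ allStates (A + n / K) (36 * K) := by
  obtain ⟨h1, h2, h3, h4, h5⟩ := h
  have h6 := height_pos (Good.ne_nil hK ⟨h1, h2, h3, h4, h5⟩)
  have h7 : j / K ≤ n / K := Nat.div_le_div_right hj
  have h8 : s.1 ≤ A + n / K := by omega
  simp only [allStates, Finset.mem_product, Finset.mem_range, mem_treesLe]
  refine ⟨by omega, lt_of_lt_of_le h1 (Nat.pow_le_pow_right (by norm_num) h8), by omega⟩

theorem Good.nonempty {n A K j : ℕ} {s : ℕ × ℕ × BT} (hK : 1 ≤ K) (hj : j ≤ n)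
    (h : Good A K j s) : (zset (A + n / K) s).Nonempty := by
  have h0 := h.ne_nil hK
  obtain ⟨h1, h2, h3, h4, h5⟩ := h
  have h6 := height_pos h0
  have h7 : j / K ≤ n / K := Nat.div_le_div_right hj
  obtain ⟨y, hy, hm⟩ := exists_mem h0
  refine ⟨s.2.1 + 2 ^ s.1 * y, ?_⟩
  have hpos : 0 < 2 ^ s.1 := by positivity
  have e1 : (s.2.1 + 2 ^ s.1 * y) % 2 ^ s.1 = s.2.1 := by
    rw [Nat.add_mul_mod_self_left, Nat.mod_eq_of_lt h1]
  have e2 : (s.2.1 + 2 ^ s.1 * y) / 2 ^ s.1 = y := by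
    rw [Nat.add_mul_div_left _ _ hpos, Nat.div_eq_of_lt h1, zero_add]
  rw [mem_zset]
  refine ⟨?_, e1, by rw [e2]; exact hm⟩
  calc s.2.1 + 2 ^ s.1 * y < 2 ^ s.1 + 2 ^ s.1 * y := by omega
    _ = 2 ^ s.1 * (y + 1) := by ring
    _ ≤ 2 ^ s.1 * 2 ^ (s.2.2.height - 1) := Nat.mul_le_mul_left _ hy
    _ = 2 ^ (s.1 + (s.2.2.height - 1)) := by rw [pow_add]
    _ ≤ 2 ^ (A + n / K) := Nat.pow_le_pow_right (by norm_num) (by omega)

theorem Good.step {A K j D : ℕ} {s : ℕ × ℕ × BT} (hK : 1 ≤ K) (h : Good A K j s) {x : ℕ}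
    (hx : x ∈ zset D s) : ∃ s', Good A K (j + 1) s' ∧ zset D s' ⊆ (zset D s).erase x := by
  obtain ⟨d, c, t⟩ := s
  obtain ⟨h1, h2, h3, h4, h5⟩ := h
  simp only at h1 h2 h3 h4 h5
  rw [mem_zset] at hx
  obtain ⟨hxD, hxc, hxm⟩ := hx
  simp only at hxc hxm
  have k1 := lv_kill hxm
  have k2 := numNodes_kill t (x / 2 ^ d)
  have k3 := height_kill t (x / 2 ^ d)
  have hsub : ∀ y, y % 2 ^ d = c → Mem (kill t (x / 2 ^ d)) (y / 2 ^ d) → y < 2 ^ D →
      y ∈ (zset D (d, c, t)).erase x := by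
    intro y hy hm hyD
    rw [Finset.mem_erase, mem_zset]
    refine ⟨?_, hyD, hy, mem_kill hm⟩
    rintro rfl
    exact not_mem_kill _ _ hm
  have hjK := Nat.mod_lt j hK
  have hdiv : K * (j / K) + j % K = j := Nat.div_add_mod j K
  by_cases hlast : j % K + 1 = K
  · have e1 : (j + 1) / K = j / K + 1 := by
      have : j + 1 = K * (j / K + 1) := by
        rw [mul_add, mul_one]
        omega
      rw [this, Nat.mul_div_cancel_left _ (by omega)]
    have e2 : (j + 1) % K = 0 := by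
      have : j + 1 = K * (j / K + 1) := by
        rw [mul_add, mul_one]
        omega
      rw [this, Nat.mul_mod_right]
    have r1 := lv_refine1 (kill t (x / 2 ^ d))
    have r2 := numNodes_refine1 (kill t (x / 2 ^ d))
    have r3 := height_refine1 (kill t (x / 2 ^ d))
    obtain ⟨d', c', t', g1, g2, g3, g4, g5, g6⟩ := split (L := 4 * K) (by omega) _ d c
      (refine1 (kill t (x / 2 ^ d))) rfl h1 (by omega) (by omega)
    refine ⟨(d', c', t'), ⟨g1, ?_, ?_, ?_, ?_⟩, ?_⟩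
    · simp only
      rw [e1]
      omega
    · simp only
      rw [e2]
      omega
    · simp only
      rw [e2]
      omega
    · simp only
      rw [e2]
      omega
    · intro y hy
      rw [mem_zset] at hy
      obtain ⟨hyD, hyc, hym⟩ := hy
      obtain ⟨g7, g8⟩ := g2 y hyc hym
      exact hsub y g7 (mem_refine1 g8) hyD
  · have e1 : (j + 1) / K = j / K := by
      have : j + 1 = (j % K + 1) + K * (j / K) := by omega
      rw [this, Nat.add_mul_div_left _ _ (by omega), Nat.div_eq_of_lt (by omega), zero_add]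
    have e2 : (j + 1) % K = j % K + 1 := by
      have : j + 1 = (j % K + 1) + K * (j / K) := by omega
      rw [this, Nat.add_mul_mod_self_left, Nat.mod_eq_of_lt (by omega)]
    refine ⟨(d, c, kill t (x / 2 ^ d)), ⟨h1, ?_, ?_, ?_, ?_⟩, ?_⟩
    · simp only
      rw [e1]
      omega
    · simp only
      rw [e2]
      omega
    · simp only
      rw [e2]
      omega
    · simp only
      rw [e2]
      omega
    · intro y hy
      rw [mem_zset] at hy
      obtain ⟨hyD, hyc, hym⟩ := hy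
      exact hsub y hyc hym hyD

theorem Good.start {A K : ℕ} (hA : 4 * K ≤ 2 ^ A) (hA' : 2 ^ A ≤ 12 * K) :
    Good A K 0 (0, 0, full A) := by
  have h1 := lv_full A
  have h2 := numNodes_full A
  have h3 := height_full A
  rw [pow_succ] at h2
  refine ⟨by simp, ?_, ?_, ?_, ?_⟩ <;> simp only [Nat.zero_div, Nat.zero_mod] <;> omega

/-- The families of sets of pigeons. -/
noncomputable def fam (n A K j : ℕ) : Finset (Finset ℕ) := by
  classical
  exact ((allStates (A + n / K) (36 * K)).filter (fun s => Good A K j s)).image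
    (zset (A + n / K))

theorem mem_fam {n A K j : ℕ} (hK : 1 ≤ K) (hj : j ≤ n) {Z : Finset ℕ} :
    Z ∈ fam n A K j ↔ ∃ s, Good A K j s ∧ zset (A + n / K) s = Z := by
  classical
  simp only [fam, Finset.mem_image, Finset.mem_filter]
  constructor
  · rintro ⟨s, ⟨-, h⟩, e⟩
    exact ⟨s, h, e⟩
  · rintro ⟨s, h, e⟩
    exact ⟨s, ⟨h.mem_allStates hK hj, h⟩, e⟩

theorem card_fam (n A K j : ℕ) :
    (fam n A K j).card ≤ 2 ^ (2 * (A + n / K)) * 4 ^ (36 * K + 1) := by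
  classical
  exact (Finset.card_image_le.trans (Finset.card_filter_le _ _)).trans (card_allStates _ _)

/-- The general upper bound. -/
theorem upper (n K A : ℕ) (hK : 1 ≤ K) (hA : 4 * K ≤ 2 ^ A) (hA' : 2 ^ A ≤ 12 * K) :
    ∃ R : Refutation n, IsOrdered R ∧ IsPlain R ∧ OnPigeons R (2 ^ (A + n / K)) ∧
      R.size ≤ 2 ^ (5 * (A + n / K) + 72 * K + 4) := by
  obtain ⟨R, h1, h2, h3, h4⟩ := scheme n (2 ^ (A + n / K))
    (2 ^ (2 * (A + n / K)) * 4 ^ (36 * K + 1)) (fam n A K)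
    (by
      intro j hj Z hZ i hi
      rw [mem_fam hK hj] at hZ
      obtain ⟨s, -, rfl⟩ := hZ
      exact (mem_zset.mp hi).1)
    (by
      intro j hj Z hZ
      rw [mem_fam hK hj] at hZ
      obtain ⟨s, hs, rfl⟩ := hZ
      exact hs.nonempty hK hj)
    (by
      intro j hj Z hZ i hi
      rw [mem_fam hK hj.le] at hZ
      obtain ⟨s, hs, rfl⟩ := hZ
      obtain ⟨s', hs', hsub⟩ := hs.step hK hi
      exact ⟨_, (mem_fam hK hj).mpr ⟨s', hs', rfl⟩, hsub⟩)
    ⟨_, (mem_fam hK (Nat.zero_le _)).mpr ⟨_, Good.start hA hA', rfl⟩⟩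
    (fun j _ => card_fam n A K j)
  refine ⟨R, h1, h2, h3, h4.trans ?_⟩
  obtain ⟨D, hD⟩ : ∃ D, D = A + n / K := ⟨_, rfl⟩
  rw [← hD]
  have hn : n + 1 ≤ 2 ^ D := by
    have g1 : n < K * (n / K + 1) := by
      have := Nat.lt_mul_div_succ n (show 0 < K by omega)
      simpa using this
    have g2 : n / K + 1 ≤ 2 ^ (n / K) := Nat.lt_two_pow_self
    calc n + 1 ≤ K * (n / K + 1) := g1
      _ ≤ 2 ^ A * 2 ^ (n / K) := Nat.mul_le_mul (by omega) g2
      _ = 2 ^ D := by rw [hD, pow_add]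
  have hM : 2 * (2 ^ D) ^ 2 + 2 ^ D ≤ 2 ^ (2 * D + 2) := by
    have g1 : 1 ≤ 2 ^ D := Nat.one_le_two_pow
    have g2 : 2 ^ (2 * D + 2) = 4 * (2 ^ D) ^ 2 := by
      rw [pow_add, mul_comm 2 D, pow_mul]
      ring
    rw [g2]
    nlinarith
  calc (n + 1) * (2 ^ (2 * D) * 4 ^ (36 * K + 1) * (2 * (2 ^ D) ^ 2 + 2 ^ D))
      ≤ 2 ^ D * (2 ^ (2 * D) * 4 ^ (36 * K + 1) * 2 ^ (2 * D + 2)) :=
        Nat.mul_le_mul hn (Nat.mul_le_mul_left _ hM)
    _ = 2 ^ (5 * D + 72 * K + 4) := by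
        rw [show (4 : ℕ) = 2 ^ 2 by norm_num, ← pow_mul, ← pow_add, ← pow_add, ← pow_add]
        congr 1
        ring

/-- The upper bound with a parameter. -/
theorem upper_param (n K : ℕ) (hK : 1 ≤ K) :
    ∃ R : Refutation n, IsOrdered R ∧ IsPlain R ∧ OnPigeons R (8 * K * 2 ^ (n / K)) ∧
      R.size ≤ 2 ^ (72 * K + 4) * (8 * K * 2 ^ (n / K)) ^ 5 := by
  obtain ⟨A, hA⟩ : ∃ A, A = Nat.clog 2 (4 * K) := ⟨_, rfl⟩
  have h1 : 4 * K ≤ 2 ^ A := by
    rw [hA]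
    exact Nat.le_pow_clog (by norm_num) _
  have h2 : 2 ^ A ≤ 8 * K := by
    have h3 : A ≠ 0 := by
      rintro rfl
      simp at h1
      omega
    obtain ⟨a, rfl⟩ := Nat.exists_eq_succ_of_ne_zero h3
    have h4 : 2 ^ a < 4 * K := by
      rw [← Nat.lt_clog_iff_pow_lt (by norm_num), ← hA]
      exact Nat.lt_succ_self _
    rw [pow_succ]
    omega
  obtain ⟨R, g1, g2, g3, g4⟩ := upper n K A hK h1 (by omega)
  have h5 : 2 ^ (A + n / K) ≤ 8 * K * 2 ^ (n / K) := by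
    rw [pow_add]
    exact Nat.mul_le_mul_right _ h2
  refine ⟨R, g1, g2, fun k hk x hx => lt_of_lt_of_le (g3 k hk x hx) h5, g4.trans ?_⟩
  calc 2 ^ (5 * (A + n / K) + 72 * K + 4) = 2 ^ (72 * K + 4) * (2 ^ (A + n / K)) ^ 5 := by
        rw [← pow_mul, ← pow_add]
        congr 1
        ring
    _ ≤ 2 ^ (72 * K + 4) * (8 * K * 2 ^ (n / K)) ^ 5 :=
        Nat.mul_le_mul_left _ (Nat.pow_le_pow_left h5 5)

/-- The upper bound for infinitely many pigeons. -/
theorem upper_sqrt (n : ℕ) (hn : 1 ≤ n) :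
    ∃ R : Refutation n, IsOrdered R ∧ IsPlain R ∧ R.size ≤ 2 ^ (106 * Nat.sqrt n) := by
  obtain ⟨K, hKd⟩ : ∃ K, K = Nat.sqrt n := ⟨_, rfl⟩
  have hK : 1 ≤ K := by
    rw [hKd]
    exact Nat.sqrt_pos.mpr hn
  obtain ⟨R, g1, g2, -, g4⟩ := upper_param n K hK
  refine ⟨R, g1, g2, g4.trans ?_⟩
  rw [← hKd]
  have h1 : n / K ≤ K + 2 := by
    have h2 : n < (K + 1) * (K + 1) := by
      rw [hKd]
      exact Nat.lt_succ_sqrt n
    have h3 : n / K < K + 3 := by
      rw [Nat.div_lt_iff_lt_mul (by omega)]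
      nlinarith
    omega
  have h2 : 8 * K ≤ 2 ^ (K + 2) := by
    obtain ⟨k, rfl⟩ : ∃ k, K = k + 1 := ⟨K - 1, by omega⟩
    have h3 : k + 1 ≤ 2 ^ k := Nat.lt_two_pow_self
    calc 8 * (k + 1) ≤ 8 * 2 ^ k := Nat.mul_le_mul_left _ h3
      _ = 2 ^ (k + 1 + 2) := by
        rw [pow_add, pow_add]
        ring
  have h3 : 8 * K * 2 ^ (n / K) ≤ 2 ^ (2 * K + 4) := by
    calc 8 * K * 2 ^ (n / K) ≤ 2 ^ (K + 2) * 2 ^ (K + 2) :=
          Nat.mul_le_mul h2 (Nat.pow_le_pow_right (by norm_num) h1)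
      _ = 2 ^ (2 * K + 4) := by
        rw [← pow_add]
        congr 1
        ring
  calc 2 ^ (72 * K + 4) * (8 * K * 2 ^ (n / K)) ^ 5
      ≤ 2 ^ (72 * K + 4) * (2 ^ (2 * K + 4)) ^ 5 :=
        Nat.mul_le_mul_left _ (Nat.pow_le_pow_left h3 5)
    _ = 2 ^ (82 * K + 24) := by
        rw [← pow_mul, ← pow_add]
        congr 1
        ring
    _ ≤ 2 ^ (106 * K) := Nat.pow_le_pow_right (by norm_num) (by omega)

end Pool.Agent.H13.UB
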